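import Pool.Agent.Helper17.OD.GoalsMA

/-! # Packet DLG: derivation lists -/

namespace Pool.Agent.Helper17.OD.PkDLG

open Set Pool.Agent.Helper17.OD

universe u

/-- Concatenation of right nested lists. -/
def app {L : Type u} : Tr L → Tr L → Tr L
  | .pr a l, m => .pr a (app l m)
  | _, m => m

theorem lmem_app {L : Type u} (x l m : Tr L) : x.lmem (app l m) ↔ x.lmem l ∨ x.lmem m := by
  induction l with
  | nat n => simp [app, Tr.lmem]
  | ord a => simp [app, Tr.lmem]
  | pr a l _ ih =>
    change (x = a ∨ x.lmem (app l m)) ↔ (x = a ∨ x.lmem l) ∨ x.lmem m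
    rw [ih, or_assoc]

theorem leaves_app {L : Type u} (l m : Tr L) : (app l m).leaves ⊆ l.leaves ∪ m.leaves := by
  induction l with
  | nat n => exact subset_union_right
  | ord a => exact subset_union_right
  | pr a l _ ih =>
    change a.leaves ∪ (app l m).leaves ⊆ (a.leaves ∪ l.leaves) ∪ m.leaves
    rw [union_assoc]
    exact union_subset_union_right _ ih

/-- All entries of `l` are justified. -/
def Jus (Step : (T → Prop) → T → Prop) (l : T) : Prop :=
  ∀ (n : ℕ) (z : T), (Tr.pr (.nat n) z).lmem l →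
    Step (fun t => ∃ k : ℕ, k < n ∧ (Tr.pr (.nat k) t).lmem l) z

theorem jus_app {Step : (T → Prop) → T → Prop}
    (hmono : ∀ X Y : T → Prop, (∀ t, X t → Y t) → ∀ y, Step X y → Step Y y) {l m : T}
    (hl : Jus Step l) (hm : Jus Step m) : Jus Step (app l m) := by
  intro n z hz
  rw [lmem_app] at hz
  rcases hz with hz | hz
  · refine hmono _ _ ?_ z (hl n z hz)
    rintro t ⟨k, hk, ht⟩
    exact ⟨k, hk, (lmem_app _ _ _).2 (Or.inl ht)⟩
  · refine hmono _ _ ?_ z (hm n z hz)
    rintro t ⟨k, hk, ht⟩
    exact ⟨k, hk, (lmem_app _ _ _).2 (Or.inr ht)⟩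

theorem thm : G_DLG := by
  classical
  intro Step hmono hfin P hcl hleast A hA y
  constructor
  · -- the set of the elements with derivation lists is closed
    intro hy
    let X : T → Prop := fun y => P y ∧ ∃ l ∈ D A, (∃ n : ℕ, (Tr.pr (.nat n) y).lmem l) ∧
      Jus Step l
    have hmerge : ∀ F : Finset T, (∀ t ∈ F, X t) → ∃ l ∈ D A,
        (∃ N : ℕ, ∀ t ∈ F, ∃ n < N, (Tr.pr (.nat n) t).lmem l) ∧ Jus Step l := by
      intro F
      induction F using Finset.induction_on with
      | empty =>
        intro _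
        refine ⟨.nat 0, ?_, ⟨0, by simp⟩, ?_⟩
        · exact empty_subset _
        · intro n z hz
          exact hz.elim
      | insert t F _ ih =>
        intro hF
        obtain ⟨l, hl, ⟨N, hN⟩, hj⟩ := ih fun s hs => hF s (Finset.mem_insert_of_mem hs)
        obtain ⟨-, l', hl', ⟨n, hn⟩, hj'⟩ := hF t (Finset.mem_insert_self t F)
        refine ⟨app l l', ?_, ⟨max N (n + 1), ?_⟩, jus_app hmono hj hj'⟩
        · exact (leaves_app l l').trans (union_subset hl hl')
        · intro s hs
          rcases Finset.mem_insert.1 hs with rfl | hs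
          · exact ⟨n, lt_of_lt_of_le (Nat.lt_succ_self n) (le_max_right _ _),
              (lmem_app _ _ _).2 (Or.inr hn)⟩
          · obtain ⟨k, hk, hk2⟩ := hN s hs
            exact ⟨k, lt_of_lt_of_le hk (le_max_left _ _), (lmem_app _ _ _).2 (Or.inl hk2)⟩
    have hX : ∀ y, Step X y → X y := by
      intro y hy
      have hPy : P y := hcl y (hmono X P (fun t ht => ht.1) y hy)
      obtain ⟨F, hF, hFy⟩ := hfin X y hy
      obtain ⟨l, hl, ⟨N, hN⟩, hj⟩ := hmerge F hF
      refine ⟨hPy, .pr (.pr (.nat N) y) l, ?_, ⟨N, Or.inl rfl⟩, ?_⟩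
      · change ((∅ : Set O) ∪ y.leaves) ∪ l.leaves ⊆ A
        rw [empty_union]
        exact union_subset (hA y hPy) hl
      · intro n z hz
        rcases hz with hz | hz
        · injection hz with h1 h2
          injection h1 with h1
          subst h1 h2
          refine hmono _ _ ?_ _ hFy
          intro t ht
          obtain ⟨k, hk, hk2⟩ := hN t ht
          exact ⟨k, hk, Or.inr hk2⟩
        · refine hmono _ _ ?_ z (hj n z hz)
          rintro t ⟨k, hk, ht⟩
          exact ⟨k, hk, Or.inr ht⟩
    exact (hleast X hX y hy).2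
  · rintro ⟨l, -, ⟨n, hn⟩, hj⟩
    have key : ∀ n : ℕ, ∀ z : T, (Tr.pr (.nat n) z).lmem l → P z := by
      intro n
      induction n using Nat.strong_induction_on with
      | _ n ih =>
        intro z hz
        refine hcl z (hmono _ _ ?_ z (hj n z hz))
        rintro t ⟨k, hk, ht⟩
        exact ih k hk t ht
    exact key n y hn

end Pool.Agent.Helper17.OD.PkDLG
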