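import Pool.Agent.Helper17.OD.GoalsFP

/-! # Project OD (MP_064283_lc), packet ETA: the function `η` of 6.1 -/

namespace Pool.Agent.Helper17.OD.PkETA

open Set

/-- `v` is regular, as a second order formula. -/
def RegE (k : O) (S : Set (Set T)) (v : T) : Prop :=
  ∀ d ∈ D (Iio k), d.IsOrd → d.llt v → ∀ F ∈ S,
    (∀ z ∈ D (Iio k), z ∈ F →
      InD d z.fst ∧ z.snd.IsOrd ∧ z.snd.llt v ∧ z = Tr.pr z.fst z.snd) →
    (∀ x ∈ D (Iio k), InD d x → ∃ y ∈ D (Iio k), Tr.pr x y ∈ F) →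
    (∀ x ∈ D (Iio k), ∀ y ∈ D (Iio k), ∀ y' ∈ D (Iio k),
      Tr.pr x y ∈ F → Tr.pr x y' ∈ F → y = y') →
    ∃ b ∈ D (Iio k), b.IsOrd ∧ b.llt v ∧
      ∀ x ∈ D (Iio k), ∀ y ∈ D (Iio k), Tr.pr x y ∈ F → y.llt b

/-- Codes of sets, as a second order formula. -/
def CodE (k : O) (S : Set (Set T)) (x v : T) (G : Set T) : Prop :=
  ∃ r ∈ D (Iio k), r.IsOrd ∧ r.llt v ∧ ∀ X ∈ S,
    (∀ t ∈ D (Iio k), t ∈ X → ∀ z ∈ D (Iio k), LeafOf z t →
      z.llt x ∨ ∃ y ∈ D (Iio k), ∃ u ∈ D (Iio k), Tr.pr y u ∈ G ∧ z.llt u) →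
    ∃ c ∈ D (Iio k), InD r c ∧ X = dec c

/-- The requirements on the value `v` at `x`, `G` the graph of the function below `x`. -/
def PhiE (k w : O) (S : Set (Set T)) (x v : T) (G : Set T) : Prop :=
  v.IsOrd ∧ (Tr.ord w : T).llt v ∧ x.llt v ∧
  (∀ y ∈ D (Iio k), ∀ z ∈ D (Iio k), Tr.pr y z ∈ G → z.llt v) ∧
  (∀ a ∈ D (Iio k), a.IsOrd → a.llt v → ∃ b ∈ D (Iio k), b.IsOrd ∧ a.llt b ∧ b.llt v) ∧
  RegE k S v ∧ CodE k S x v G

theorem isOrd_iff {t : T} : t.IsOrd ↔ ∃ a, t = .ord a := by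
  cases t <;> simp [Tr.IsOrd]

variable {k : O} {S S' : Set (Set T)}

theorem SD.decc (h2 : G_DEC) [h : SOM k S S'] {t : T → T} {θ : (ℕ → Set T) → Set T}
    (ht : ST k t) (hθ : SV S' θ) : SD k S S' (fun e σ => θ σ = dec (t e)) :=
  SD.appS1 (R := fun e X => X = dec e) (h2 k S S' h).2.2.2 ht hθ

theorem phi_sd (h2 : G_DEC) (h3 : G_TRE) [h : SOM k S S'] {w : O} (hw : w < k) :
    SD k S S' (fun e σ => PhiE k w S e.fst e.snd (σ 0)) := by
  obtain ⟨-, -, -, hleaf, -, hind, -⟩ := h3 k S S' h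
  have hdec := fun {t : T → T} {θ : (ℕ → Set T) → Set T} (ht : ST k t) (hθ : SV S' θ) =>
    SD.decc h2 (k := k) (S := S) (S' := S') ht hθ
  unfold PhiE RegE CodE
  repeat' first
    | apply SD.exT | apply SD.allT | apply SD.exS | apply SD.allS | apply SD.isOrd | apply SD.llt
    | apply SD.mem | apply SD.eq | apply hdec | apply SD.and | apply SD.or | apply SD.imp
    | exact SV.var _ | exact ST.ordc hw | exact ST.id | apply ST.fst | apply ST.snd | apply ST.pr
    | apply SD.app2 hind | apply SD.app2 hleaf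

theorem inD_ord {b : O} {t : T} : InD (.ord b) t ↔ t ∈ D (Iio b) := by
  constructor
  · rintro ⟨c, hc, h⟩
    cases hc
    exact h
  · exact fun h => ⟨b, rfl, h⟩

theorem leafOf_iff {z t : T} : LeafOf z t ↔ ∃ a ∈ t.leaves, z = .ord a := Iff.rfl

theorem gr_pr {A : Set T} {f : T → T} {x y : T} : Tr.pr x y ∈ gr A f ↔ x ∈ A ∧ y = f x := by
  constructor
  · rintro ⟨x', hx', h⟩
    cases h
    exact ⟨hx', rfl⟩
  · rintro ⟨hx, rfl⟩
    exact ⟨x, hx, rfl⟩

theorem grt_pr {a : O} {q : O → T} {x y : T} :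
    Tr.pr x y ∈ grt a q ↔ ∃ i < a, x = .ord i ∧ y = q i := by
  constructor
  · rintro ⟨i, hi, h⟩
    cases h
    exact ⟨i, hi, rfl, rfl⟩
  · rintro ⟨i, hi, rfl, rfl⟩
    exact ⟨i, hi, rfl⟩

theorem regE_iff [h : SOM k S S'] {μ : O} (hμ : μ < k) : RegE k S (.ord μ) ↔ MReg S μ := by
  constructor
  · intro H d hd f hf hgr
    obtain ⟨b, hb, hbo, hbv, hall⟩ := H (.ord d) (ord_mem.2 (hd.trans hμ)) trivial hd _ hgr
      (by
        rintro z hz ⟨x, hx, rfl⟩
        obtain ⟨h1, h2⟩ := hf x hx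
        obtain ⟨a, ha⟩ := isOrd_iff.1 h1
        refine ⟨inD_ord.2 hx, h1, ?_, rfl⟩
        rw [ha] at h2
        simp only [Tr.snd, ha]
        exact ord_mem.1 h2)
      (by
        intro x hx hx'
        rw [inD_ord] at hx'
        refine ⟨f x, ?_, gr_pr.2 ⟨hx', rfl⟩⟩
        exact D_mono (Iio_subset_Iio hμ.le) (hf x hx').2)
      (by
        intro x _ y _ y' _ h1 h2
        rw [gr_pr] at h1 h2
        rw [h1.2, h2.2])
    obtain ⟨b', rfl⟩ := isOrd_iff.1 hbo
    refine ⟨b', hbv, fun x hx => ?_⟩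
    have hxk : x ∈ D (Iio k) := D_mono (Iio_subset_Iio (hd.trans hμ).le) hx
    obtain ⟨h1, h2⟩ := hf x hx
    obtain ⟨a, ha⟩ := isOrd_iff.1 h1
    have h3 := hall x hxk (f x) (D_mono (Iio_subset_Iio hμ.le) h2) (gr_pr.2 ⟨hx, rfl⟩)
    rw [ha] at h3 ⊢
    exact ord_mem.2 h3
  · intro H d hd hdo hdv F hF h1 h2 h3
    classical
    obtain ⟨d', rfl⟩ := isOrd_iff.1 hdo
    have hd' : d' < μ := hdv
    have hdk : d' < k := hd'.trans hμ
    obtain ⟨m, hm, hFm⟩ := h.bdd F hF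
    have hFk : F ⊆ D (Iio k) := hFm.trans (D_mono (Iio_subset_Iio hm.le))
    have hsub : D (Iio d') ⊆ D (Iio k) := D_mono (Iio_subset_Iio hdk.le)
    choose! f hf1 hf2 using h2
    have hfx : ∀ x ∈ D (Iio d'), Tr.pr x (f x) ∈ F := fun x hx =>
      hf2 x (hsub hx) (inD_ord.2 hx)
    have hgr : gr (D (Iio d')) f = F := by
      ext z
      constructor
      · rintro ⟨x, hx, rfl⟩
        exact hfx x hx
      · intro hz
        obtain ⟨g1, g2, g3, g4⟩ := h1 z (hFk hz) hz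
        have hzk := hFk hz
        rw [inD_ord] at g1
        have := h3 z.fst (hsub g1) z.snd (snd_mem hzk) (f z.fst)
          (hf1 _ (hsub g1) (inD_ord.2 g1)) (g4 ▸ hz) (hfx _ g1)
        exact ⟨z.fst, g1, by rw [← this]; exact g4⟩
    obtain ⟨b, hb, hall⟩ := H d' hd' f (by
      intro x hx
      have g := h1 _ (hFk (hfx x hx)) (hfx x hx)
      simp only [Tr.fst, Tr.snd] at g
      obtain ⟨a, ha⟩ := isOrd_iff.1 g.2.1
      refine ⟨g.2.1, ?_⟩
      rw [ha] at g ⊢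
      exact ord_mem.2 g.2.2.1) (hgr ▸ hF)
    refine ⟨.ord b, ord_mem.2 (hb.trans hμ), trivial, hb, fun x hx y hy hxy => ?_⟩
    rw [← hgr, gr_pr] at hxy
    obtain ⟨hx', rfl⟩ := hxy
    have g := h1 _ (hFk (hfx x hx')) (hfx x hx')
    simp only [Tr.fst, Tr.snd] at g
    obtain ⟨a, ha⟩ := isOrd_iff.1 g.2.1
    have := hall x hx'
    rw [ha] at this ⊢
    exact ord_mem.1 this

theorem codE_iff [h : SOM k S S'] {μ x : O} (hμ : μ < k) (hx : x < k) {q : O → T} {e : O → O}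
    (hq : ∀ y < x, q y = .ord (e y)) (he : ∀ y < x, e y < k) :
    CodE k S (.ord x) (.ord μ) (grt x q) ↔
      ∃ r < μ, ∀ X ∈ S, X ⊆ D {a | a < x ∨ ∃ i < x, a < e i} → ∃ c ∈ D (Iio r), X = dec c := by
  have key : ∀ X ∈ S, (∀ t ∈ D (Iio k), t ∈ X → ∀ z ∈ D (Iio k), LeafOf z t →
      z.llt (.ord x) ∨ ∃ y ∈ D (Iio k), ∃ u ∈ D (Iio k), Tr.pr y u ∈ grt x q ∧ z.llt u) ↔
      X ⊆ D {a | a < x ∨ ∃ i < x, a < e i} := by
    intro X hX
    obtain ⟨m, hm, hXm⟩ := h.bdd X hX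
    have hXk : X ⊆ D (Iio k) := hXm.trans (D_mono (Iio_subset_Iio hm.le))
    constructor
    · intro H t ht a ha
      have hak : a < k := hXk ht ha
      rcases H t (hXk ht) ht (.ord a) (ord_mem.2 hak) ⟨a, ha, rfl⟩ with h1 | ⟨y, _, u, _, h1, h2⟩
      · exact Or.inl h1
      · obtain ⟨i, hi, rfl, rfl⟩ := grt_pr.1 h1
        rw [hq i hi] at h2
        exact Or.inr ⟨i, hi, h2⟩
    · rintro H t _ ht z _ ⟨a, ha, rfl⟩
      rcases H ht ha with h1 | ⟨i, hi, h1⟩
      · exact Or.inl h1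
      · refine Or.inr ⟨.ord i, ord_mem.2 (hi.trans hx), q i, ?_, grt_pr.2 ⟨i, hi, rfl, rfl⟩, ?_⟩
        · rw [hq i hi]
          exact ord_mem.2 (he i hi)
        · rw [hq i hi]
          exact h1
  constructor
  · rintro ⟨r, hr, hro, hrv, H⟩
    obtain ⟨r', rfl⟩ := isOrd_iff.1 hro
    refine ⟨r', hrv, fun X hX hX' => ?_⟩
    obtain ⟨c, _, hc, hXc⟩ := H X hX ((key X hX).2 hX')
    exact ⟨c, inD_ord.1 hc, hXc⟩
  · rintro ⟨r, hr, H⟩
    refine ⟨.ord r, ord_mem.2 (hr.trans hμ), trivial, hr, fun X hX hX' => ?_⟩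
    obtain ⟨c, hc, hXc⟩ := H X hX ((key X hX).1 hX')
    exact ⟨c, D_mono (Iio_subset_Iio (hr.trans hμ).le) hc, inD_ord.2 hc, hXc⟩

theorem thm (h1 : G_TRC) (h2 : G_DEC) (h3 : G_TRE) (h4 : G_SOB) : G_ETA := by
  classical
  intro w κ γ hG
  have hM := hG.m1
  have hwγ : w < γ := hG.wk.trans hG.kg
  have hDκ : D (Iio κ) ∈ Con γ := (h4 γ _ _ hM).2.1 κ hG.kg
  have hA : {t : T | t ∈ D (Iio κ) ∧ t.IsOrd} ∈ Con γ :=
    SOM.sep (S' := Con γ) (S := Con γ) (SD.isOrd ST.id) hG.kg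
  obtain ⟨q, hq, hqq⟩ := h1 γ (Con γ) (Con γ) hM κ hG.kg (PhiE γ w (Con γ)) _ hA
    (phi_sd h2 h3 hwγ) (by
    intro x hx q hgr hqy
    have hxγ : x < γ := hx.trans hG.kg
    have hqo : ∀ y < x, q y = .ord (lev (q y)) := by
      intro y hy
      obtain ⟨a, ha⟩ := isOrd_iff.1 (hqy y hy).1.2
      rw [ha]
      rfl
    have hqκ : ∀ y < x, lev (q y) < κ := by
      intro y hy
      have := (hqy y hy).1.1
      rw [hqo y hy] at this
      exact ord_mem.1 this
    -- the values are bounded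
    let f : T → T := fun t => if t ∈ D (Iio x) ∧ t.IsOrd then q (lev t) else .ord 0
    have hfg : gr (D (Iio x)) f ∈ Con γ := by
      have hκ0 : (0 : O) < κ := by
        have := hG.omw.trans hG.wk
        exact lt_of_le_of_lt (zero_le) this
      have hf : ∀ t ∈ D (Iio x), (f t).IsOrd ∧ f t ∈ D (Iio κ) := by
        intro t ht
        by_cases hto : t.IsOrd
        · obtain ⟨a, rfl⟩ := isOrd_iff.1 hto
          have ha : a < x := ord_mem.1 ht
          have : f (.ord a) = q a := by simp only [f]; rw [if_pos ⟨ht, trivial⟩]; rfl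
          rw [this, hqo a ha]
          exact ⟨trivial, ord_mem.2 (hqκ a ha)⟩
        · have : f t = .ord 0 := by simp only [f]; rw [if_neg (fun h => hto h.2)]
          rw [this]
          exact ⟨trivial, ord_mem.2 hκ0⟩
      refine SOM.of_SD (S := Con γ) (d := κ) hG.kg ?_ ?_
      · rintro z ⟨t, ht, rfl⟩
        exact pr_mem.2 ⟨D_mono (Iio_subset_Iio hx.le) ht, (hf t ht).2⟩
      · have hDx : D (Iio x) ∈ Con γ := (h4 γ _ _ hM).2.1 x hxγ
        have : SD γ (Con γ) (Con γ) (fun e _ => e.fst ∈ D (Iio x) ∧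
            ((e.fst.IsOrd ∧ e ∈ grt x q) ∨ (¬ e.fst.IsOrd ∧ e = .pr e.fst (.ord 0)))) := by
          have h0 : (0 : O) < γ := hκ0.trans hG.kg
          repeat' first
            | exact SV.par hDx | exact SV.par hgr | apply SD.and | apply SD.or | apply SD.not
            | apply SD.isOrd | apply SD.mem | apply SD.eq | exact ST.ordc h0 | exact ST.id
            | apply ST.fst | apply ST.pr
        refine this.congr fun e _ _ _ => ?_
        constructor
        · rintro ⟨g1, ⟨g2, g3⟩ | ⟨g2, g3⟩⟩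
          · obtain ⟨i, hi, rfl⟩ := g3
            refine ⟨.ord i, g1, ?_⟩
            have : f (.ord i) = q i := by simp only [f]; rw [if_pos ⟨g1, trivial⟩]; rfl
            rw [this]
          · refine ⟨e.fst, g1, ?_⟩
            have : f e.fst = .ord 0 := by simp only [f]; rw [if_neg (fun h => g2 h.2)]
            rw [this]
            exact g3
        · rintro ⟨t, ht, rfl⟩
          refine ⟨ht, ?_⟩
          by_cases hto : t.IsOrd
          · left
            obtain ⟨a, rfl⟩ := isOrd_iff.1 hto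
            have ha : a < x := ord_mem.1 ht
            have : f (.ord a) = q a := by simp only [f]; rw [if_pos ⟨ht, trivial⟩]; rfl
            rw [this]
            exact ⟨trivial, a, ha, rfl⟩
          · right
            have : f t = .ord 0 := by simp only [f]; rw [if_neg (fun h => hto h.2)]
            rw [this]
            exact ⟨hto, rfl⟩
    obtain ⟨b, hb, hbb⟩ := hG.m4k x hx f (by
      intro t ht
      by_cases hto : t.IsOrd
      · obtain ⟨a, rfl⟩ := isOrd_iff.1 hto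
        have ha : a < x := ord_mem.1 ht
        have : f (.ord a) = q a := by simp only [f]; rw [if_pos ⟨ht, trivial⟩]; rfl
        rw [this, hqo a ha]
        exact ⟨trivial, ord_mem.2 (hqκ a ha)⟩
      · have : f t = .ord 0 := by simp only [f]; rw [if_neg (fun h => hto h.2)]
        rw [this]
        have := hG.omw.trans hG.wk
        exact ⟨trivial, ord_mem.2 (lt_of_le_of_lt (zero_le) this)⟩) hfg
    have hlb : ∀ y < x, lev (q y) < b := by
      intro y hy
      have h5 := hbb (.ord y) (ord_mem.2 hy)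
      have : f (.ord y) = q y := by
        simp only [f]; rw [if_pos ⟨ord_mem.2 hy, trivial⟩]; rfl
      rw [this, hqo y hy] at h5
      exact ord_mem.1 h5
    obtain ⟨b', hb', hcod⟩ := hG.m5 (max b x) (max_lt hb hx)
    obtain ⟨μ, hdμ, hμκ, hlim, hreg⟩ := hG.m6 (max (max (max b x) b') w)
      (max_lt (max_lt (max_lt hb hx) hb') hG.wk)
    have hμγ : μ < γ := hμκ.trans hG.kg
    have hbμ : b < μ := lt_of_le_of_lt ((le_max_left _ _).trans ((le_max_left _ _).trans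
      (le_max_left _ _))) hdμ
    have hxμ : x < μ := lt_of_le_of_lt ((le_max_right _ _).trans ((le_max_left _ _).trans
      (le_max_left _ _))) hdμ
    have hb'μ : b' < μ := lt_of_le_of_lt ((le_max_right _ _).trans (le_max_left _ _)) hdμ
    have hwμ : w < μ := lt_of_le_of_lt (le_max_right _ _) hdμ
    refine ⟨.ord μ, ⟨ord_mem.2 hμκ, trivial⟩, trivial, hwμ, hxμ, ?_, ?_, ?_, ?_⟩
    · intro y _ z _ hyz
      obtain ⟨i, hi, rfl, rfl⟩ := grt_pr.1 hyz
      rw [hqo i hi]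
      exact (hlb i hi).trans hbμ
    · intro a _ hao hav
      obtain ⟨a', rfl⟩ := isOrd_iff.1 hao
      have ha' : a' < μ := hav
      have hs := hlim.succ_lt ha'
      exact ⟨.ord (Order.succ a'), ord_mem.2 (hs.trans hμγ), trivial,
        Order.lt_succ a', hs⟩
    · exact (regE_iff (S' := Con γ) hμγ).2 hreg
    · refine (codE_iff (S' := Con γ) (e := fun y => lev (q y)) hμγ hxγ hqo
        (fun y hy => (hqκ y hy).trans hG.kg)).2 ⟨b', hb'μ, fun X hX hX' => ?_⟩
      refine hcod X hX (hX'.trans (D_mono ?_))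
      rintro a (ha | ⟨i, hi, ha⟩)
      · exact lt_of_lt_of_le ha (le_max_right _ _)
      · exact (ha.trans (hlb i hi)).trans_le (le_max_left _ _))
  -- the function
  have hqo : ∀ y < κ, q y = .ord (lev (q y)) := by
    intro y hy
    obtain ⟨a, ha⟩ := isOrd_iff.1 (hqq y hy).1.2
    rw [ha]
    rfl
  have hqκ : ∀ y < κ, lev (q y) < κ := by
    intro y hy
    have := (hqq y hy).1.1
    rw [hqo y hy] at this
    exact ord_mem.1 this
  refine ⟨fun j => lev (q j), ?_, ?_, ?_, ?_, ?_, ?_, ?_⟩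
  · exact fun j hj => hqκ j hj
  · intro j hj
    obtain ⟨-, g1, g2, -⟩ := (hqq j hj).2
    rw [hqo j hj] at g1 g2
    exact ⟨g1, g2⟩
  · intro j hj i hi
    obtain ⟨-, -, -, g, -⟩ := (hqq j hj).2
    have := g (.ord i) (ord_mem.2 (hi.trans (hj.trans hG.kg))) (q i)
      (by rw [hqo i (hi.trans hj)]; exact ord_mem.2 ((hqκ i (hi.trans hj)).trans hG.kg))
      (grt_pr.2 ⟨i, hi, rfl, rfl⟩)
    rw [hqo j hj, hqo i (hi.trans hj)] at this
    exact this
  · intro j hj
    obtain ⟨-, g1, -, -, g, -⟩ := (hqq j hj).2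
    rw [hqo j hj] at g1 g
    have g1' : w < lev (q j) := g1
    have hjγ := (hqκ j hj).trans hG.kg
    refine ⟨fun hmin => ?_, ?_⟩
    · exact absurd (hmin (zero_le : (0:O) ≤ lev (q j))) (not_le.2 (lt_of_le_of_lt (zero_le) g1'))
    · intro a hcov
      obtain ⟨b, hb, hbo, hab, hbj⟩ := g (.ord a) (ord_mem.2 (hcov.lt.trans hjγ)) trivial hcov.lt
      obtain ⟨b', rfl⟩ := isOrd_iff.1 hbo
      exact hcov.2 (c := b') hab hbj
  · intro j hj
    obtain ⟨-, -, -, -, -, g, -⟩ := (hqq j hj).2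
    rw [hqo j hj] at g
    exact (regE_iff (S' := Con γ) ((hqκ j hj).trans hG.kg)).1 g
  · intro j hj
    obtain ⟨-, -, -, -, -, -, g⟩ := (hqq j hj).2
    rw [hqo j hj] at g
    exact (codE_iff (S' := Con γ) (e := fun y => lev (q y)) ((hqκ j hj).trans hG.kg) (hj.trans hG.kg)
      (fun y hy => hqo y (hy.trans hj)) (fun y hy => (hqκ y (hy.trans hj)).trans hG.kg)).1 g
  · have : gro κ (fun j => lev (q j)) = grt κ q := by
      ext z
      constructor
      · rintro ⟨x, hx, rfl⟩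
        exact ⟨x, hx, by rw [hqo x hx]⟩
      · rintro ⟨x, hx, rfl⟩
        refine ⟨x, hx, ?_⟩
        rw [← hqo x hx]
    rw [this]
    exact hq

end Pool.Agent.Helper17.OD.PkETA
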