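import Pool.Agent.Helper17.OD.GoalsWM

/-! # Project OD (MP_064283_lc), packet PAR: one parameter suffices -/

namespace Pool.Agent.Helper17.OD.PkPAR

open Set
open Pool.Agent.Helper97.Ku (Fml IsZFC)

variable {W Q : Set Z}

/-- Unpacking of a tuple of length `n` at the variable `0`. -/
def unp (W : Set Z) (P : (ℕ → Z) → Prop) : ℕ → (ℕ → Z) → Prop
  | 0, v => P (fun i => v (i + 1))
  | n + 1, v => ∃ z ∈ W, ∃ b ∈ W, v 0 = ZFSet.pair z b ∧
      unp W P n (zcons b (zcons z (fun i => v (i + 1))))

theorem unp_dp [h : PS W Q] [hz : ZM W] {P : (ℕ → Z) → Prop} (hP : DP W Q P) (n : ℕ) :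
    DP W Q (unp W P n) := by
  induction n with
  | zero => exact DP.ren (fun i => i + 1) hP
  | succ n ih =>
    have h1 : DP W Q (fun v => v 2 = ZFSet.pair (v 1) (v 0) ∧
        unp W P n (zcons (v 0) (zcons (v 1) (fun i => v (i + 3))))) := by
      refine DP.and (DP.eq (DT.var 2) (DT.pair (DT.var 1) (DT.var 0))) ?_
      have h2 := DP.ren (fun i => if i = 0 then 0 else if i = 1 then 1 else i + 1) ih
      refine h2.congr fun v _ => iff_of_eq (congrArg _ ?_)
      funext i
      rcases i with _ | _ | i <;> simp [zcons]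
    exact DP.ex (P := fun z v => ∃ b ∈ W, v 0 = ZFSet.pair z b ∧
      unp W P n (zcons b (zcons z (fun i => v (i + 1)))))
      (DP.ex (P := fun b v => v 1 = ZFSet.pair (v 0) b ∧
        unp W P n (zcons b (zcons (v 0) (fun i => v (i + 2))))) h1)

/-- The tuple `q 0, …, q (n - 1)`. -/
noncomputable def tup (q : ℕ → Z) : ℕ → Z
  | 0 => ∅
  | n + 1 => ZFSet.pair (q n) (tup q n)

theorem tup_mem [hz : ZM W] {q : ℕ → Z} (hq : ∀ i, q i ∈ W) (n : ℕ) : tup q n ∈ W := by
  induction n with
  | zero => exact hz.emp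
  | succ n ih => exact ZM.pair (hq n) ih

theorem unp_tup [hz : ZM W] (P : (ℕ → Z) → Prop) {q : ℕ → Z} (hq : ∀ i, q i ∈ W) (n : ℕ) :
    ∀ v : ℕ → Z, unp W P n (zcons (tup q n) v) ↔ P (fun i => if i < n then q i else v (i - n)) := by
  induction n with
  | zero => intro v; simp [unp, zcons]
  | succ n ih =>
    intro v
    have h1 : unp W P (n + 1) (zcons (tup q (n + 1)) v) ↔
        unp W P n (zcons (tup q n) (zcons (q n) v)) := by
      constructor
      · rintro ⟨z, _, b, _, h, h'⟩
        have h2 : ZFSet.pair (q n) (tup q n) = ZFSet.pair z b := h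
        obtain ⟨rfl, rfl⟩ := ZFSet.pair_injective h2
        exact h'
      · intro h'
        exact ⟨q n, hq n, tup q n, tup_mem hq n, rfl, h'⟩
    rw [h1, ih]
    refine iff_of_eq (congrArg _ ?_)
    funext i
    by_cases h2 : i < n
    · rw [if_pos h2, if_pos (by omega)]
    · rw [if_neg h2]
      by_cases h3 : i = n
      · subst h3
        simp [zcons]
      · rw [if_neg (by omega)]
        obtain ⟨j, rfl⟩ : ∃ j, i = n + 1 + j := ⟨i - (n + 1), by omega⟩
        have e1 : n + 1 + j - n = j + 1 := by omega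
        have e2 : n + 1 + j - (n + 1) = j := by omega
        rw [e1, e2]
        rfl

theorem thm : G_PAR := by
  classical
  intro W α hz hα x ⟨hx, φ, p, hp, hφ⟩
  have h0α : (0 : O) < α := lt_of_le_of_ne zero_le (fun h => hα.ne_bot h.symm)
  have hQ : PS W (OrX W ∅) := ⟨⟨∅, hz.emp, Or.inl (by
    have := ZFSet.isOrdinal_toZFSet (0 : O)
    rwa [Ordinal.toZFSet_zero] at this)⟩, fun y hy => hy.1⟩
  have hemp : (∅ : Z) ∈ OrX W ∅ := ⟨hz.emp, Or.inl (by
    have := ZFSet.isOrdinal_toZFSet (0 : O)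
    rwa [Ordinal.toZFSet_zero] at this)⟩
  set N := fbd φ with hN
  -- the parameters in the level
  let q : ℕ → Z := fun i => if (p i : Z).IsOrdinal then ∅ else p i
  have hqL : ∀ i, q i ∈ Lev W α := by
    intro i
    simp only [q]
    split_ifs with h
    · exact ⟨hz.emp, by rw [ZFSet.rank_empty]; exact h0α⟩
    · exact (hp i).resolve_left h
  have hqW : ∀ i, q i ∈ W := fun i => (hqL i).1
  -- the predicate
  let P₀ : (ℕ → Z) → Prop := fun v => SatW W φ v
  have hP₀ : DP W (OrX W ∅) P₀ := by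
    refine ⟨fsub φ (fun i => 2 * i), fun _ => ∅, fun _ => hemp, fun v hv => ?_⟩
    rw [satW_fsub W _ _ _ (zmix_forall hv fun _ => hz.emp)]
    simp only [zmix_even]
    rfl
  let θ : ℕ → (ℕ → Z) → Z := fun i u => if i = 0 then u N else
    if N ≤ i then ∅ else if (p i : Z).IsOrdinal then p i else u i
  have hP₁ : DP W (OrX W ∅) (fun u => P₀ (fun i => θ i u)) := by
    refine DP.subS hP₀ fun i => ?_
    by_cases h1 : i = 0
    · exact Or.inl ⟨N, fun v => by simp [θ, h1]⟩
    by_cases h2 : N ≤ i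
    · exact Or.inr ⟨∅, hemp, fun v => by simp [θ, h1, h2]⟩
    by_cases h3 : (p i : Z).IsOrdinal
    · exact Or.inr ⟨p i, ⟨(p i).2, Or.inl h3⟩, fun v => by simp [θ, h1, h2, h3]⟩
    · exact Or.inl ⟨i, fun v => by simp [θ, h1, h2, h3]⟩
  let P₁ : (ℕ → Z) → Prop := fun u => P₀ (fun i => θ i u)
  have hP₂ := unp_dp (hP := hP₁) N
  refine ⟨fun b y => unp W P₁ N (zcons b (zcons y fun _ => ∅)), tup q N, ⟨tup_mem hqW N, ?_⟩, ?_,
    ?_⟩
  · -- rank
    have : ∀ n, (tup q n).rank < α := by
      intro n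
      induction n with
      | zero => simp only [tup, ZFSet.rank_empty]; exact h0α
      | succ n ih =>
        simp only [tup, pair_rank]
        have h1 : max (q n).rank (tup q n).rank < α := max_lt (hqL n).2 ih
        have h2 := hα.succ_lt (hα.succ_lt h1)
        have h3 : max (q n).rank (tup q n).rank + 2 =
            Order.succ (Order.succ (max (q n).rank (tup q n).rank)) := by
          simp only [Order.succ_eq_add_one, add_assoc]
          norm_num
        rw [h3]
        exact h2
    exact this N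
  · have := DP.subS (θ := fun i v => zcons (v 0) (zcons (v 1) fun _ => ∅) i) hP₂ fun i => by
      rcases i with _ | _ | i
      · exact Or.inl ⟨0, fun _ => rfl⟩
      · exact Or.inl ⟨1, fun _ => rfl⟩
      · exact Or.inr ⟨∅, hemp, fun _ => rfl⟩
    exact this
  · intro y hy
    have h1 := unp_tup (W := W) P₁ hqW N (zcons y fun _ => ∅)
    refine h1.trans ?_
    have h2 : SatW W φ (fun i => ((Function.update p 0 ⟨y, hy⟩ i : W) : Z)) ↔ y = x := by
      rw [← sat_El, hφ ⟨y, hy⟩]
      exact Subtype.ext_iff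
    rw [← h2]
    apply satW_agree
    intro i hi
    by_cases h3 : i = 0
    · subst h3
      simp [θ, zcons]
    · have h4 : ¬ N ≤ i := by omega
      rw [Function.update_of_ne h3]
      simp only [θ, h3, h4, if_false]
      split_ifs with h5
      · rfl
      · simp [q, h5]

end Pool.Agent.Helper17.OD.PkPAR
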