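import Pool.Agent.Helper17.OD.GoalsGE

/-! # Project OD (MP_064283_lc), packet SVP: power enumeration in the extension -/

namespace Pool.Agent.Helper17.OD.PkSVP

open Set

theorem thm (h1 : G_NRD) (h2 : G_NMB) (h3 : G_CNC) (h4 : G_PIM) (h5 : G_SOB) (h6 : G_DEC)
    (h7 : G_PBD) : G_SVP := by
  intro F G hG d hd
  have hM : SOM F.γ F.M F.M := F.g.m1
  obtain ⟨hdec, -⟩ := h6 F.γ F.M F.M hM
  have hdec2 : ∀ {s t : T → T}, ST F.γ s → ST F.γ t →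
      SD F.γ F.M F.M (fun e _ => s e ∈ dec (t e)) :=
    fun hs ht => SD.app2 (R := fun a b => a ∈ dec b) hdec hs ht
  have hsd : Order.succ d < F.κ := F.g.klim.succ_lt hd
  obtain ⟨r, hr, hPr⟩ := (h7 F).1 _ hsd
  have hrκ : r < F.κ := hr.trans (F.e.lt _ hsd)
  obtain ⟨b, hb, hcod⟩ := F.g.m5 (max d r) (max_lt hd hrκ)
  have hκγ := F.g.kg
  have hPs : F.P (Order.succ d) ∈ F.M := (h4 F).2.2 _ hsd.le
  have hDb : D (Iio b) ∈ F.M := (h5 _ _ _ hM).2.1 b (hb.trans hκγ)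
  have hDd : D (Iio d) ∈ F.M := (h5 _ _ _ hM).2.1 d (hd.trans hκγ)
  set τ : Set T := {z | ∃ c ∈ D (Iio b), ∃ y ∈ D (Iio d), ∃ p ∈ F.P (Order.succ d),
    Tr.pr y p ∈ dec c ∧ z = .pr (.pr c y) p} with hτ
  have hτM : τ ∈ F.M := by
    refine SOM.of_SD (S := F.M) (d := F.κ) hκγ ?_ ?_
    · rintro z ⟨c, hc, y, hy, p, hp, -, rfl⟩
      exact pr_mem.2 ⟨pr_mem.2 ⟨D_mono (Iio_subset_Iio hb.le) hc,
        D_mono (Iio_subset_Iio hd.le) hy⟩, (h7 F).2.1 _ hp⟩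
    · have : SD F.γ F.M F.M (fun e _ => e.fst.fst ∈ D (Iio b) ∧ e.fst.snd ∈ D (Iio d) ∧
          e.snd ∈ F.P (Order.succ d) ∧ Tr.pr e.fst.snd e.snd ∈ dec e.fst.fst ∧
          e = .pr (.pr e.fst.fst e.fst.snd) e.snd) := by
        repeat' first
          | exact SV.par hPs | exact SV.par hDb | exact SV.par hDd | apply SD.and | apply SD.eq
          | apply hdec2 | apply SD.mem | exact ST.id | apply ST.fst | apply ST.snd
          | apply ST.pr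
      refine this.congr fun e _ _ _ => ?_
      constructor
      · rintro ⟨g1, g2, g3, g4, g5⟩
        exact ⟨_, g1, _, g2, _, g3, g4, g5⟩
      · rintro ⟨c, hc, y, hy, p, hp, hy', rfl⟩
        exact ⟨hc, hy, hp, hy', rfl⟩
  refine ⟨evl G τ, (h2 F G hG).1 τ hτM ⟨_, hsd, ?_⟩ ⟨max b d, max_lt hb hd, ?_⟩, ?_⟩
  · rintro z ⟨c, hc, y, hy, p, hp, -, rfl⟩
    exact ⟨_, p, hp, rfl⟩
  · rintro z ⟨c, hc, y, hy, p, hp, -, rfl⟩
    exact pr_mem.2 ⟨D_mono (Iio_subset_Iio (le_max_left _ _)) hc,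
      D_mono (Iio_subset_Iio (le_max_right _ _)) hy⟩
  rintro Y ⟨c', ⟨hc'κ, -, i, hi, hc'⟩, rfl⟩ hYd
  have hc'M : dec c' ∈ F.M := ⟨c', D_mono (Iio_subset_Iio hκγ.le) hc'κ, rfl⟩
  have hτ' : {z | z ∈ dec c' ∧ z.fst ∈ D (Iio d)} ∈ F.M :=
    (h5 _ _ _ hM).2.2.2.2.2.2.2.1 _ hc'M _ (SD.mem (ST.fst ST.id) (SV.par hDd))
  obtain ⟨c, hcN, hcd, hce⟩ := h1 F G hG d d hd (F.e.low d hd).2 _ hτ' (by
    rintro z ⟨hz, hz'⟩
    obtain ⟨y, p, hp, rfl⟩ := hc' z hz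
    exact ⟨y, hz', p, (h7 F).2.2.1 i _ hi.le hp, rfl⟩)
  have hev : evl G {z | z ∈ dec c' ∧ z.fst ∈ D (Iio d)} = evl G (dec c') := by
    ext y
    constructor
    · rintro ⟨p, hp, hyp, -⟩
      exact ⟨p, hp, hyp⟩
    · rintro ⟨p, hp, hyp⟩
      exact ⟨p, hp, hyp, hYd ⟨p, hp, hyp⟩⟩
  have hcb : c ∈ D (Iio b) := by
    have hcM : dec c ∈ F.M := ⟨c, D_mono (Iio_subset_Iio hκγ.le) hcN.1, rfl⟩
    obtain ⟨c₁, hc₁, he⟩ := hcod _ hcM (by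
      intro z hz
      obtain ⟨y, hy, p, hp, rfl⟩ := hcd z hz
      exact pr_mem.2 ⟨D_mono (Iio_subset_Iio (le_max_left _ _)) hy,
        D_mono (Iio_subset_Iio (le_max_right _ _)) (hPr hp)⟩)
    have := h3.2.2.1 (dec c) b ⟨c₁, hc₁, he.symm⟩
    rwa [h3.2.1 c hcN.2.1] at this
  refine ⟨c, D_mono (Iio_subset_Iio hb.le) hcb, ?_⟩
  rw [← hev, hce]
  ext x
  constructor
  · rintro ⟨p, hp, hxp⟩
    obtain ⟨y, hy, p', hp', he⟩ := hcd _ hxp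
    cases he
    exact ⟨p, hp, c, hcb, x, hy, p, hp', hxp, rfl⟩
  · rintro ⟨p, hp, c₂, hc₂, y, hy, p', hp', hyp, he⟩
    cases he
    exact ⟨p, hp, hyp⟩

end Pool.Agent.Helper17.OD.PkSVP
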