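import Pool.Agent.Helper17.OD.GoalsWM

/-! # Project OD (MP_064283_lc), packet WTR: translation of second order formulas -/

namespace Pool.Agent.Helper17.OD.PkWTR

open Set
open Pool.Agent.Helper97.Ku (Fml IsZFC)

theorem thm (h1 : G_ENC) (h2 : G_EDF) (h3 : G_WRK) : G_WTR := by
  intro W Q κ hz hQ hκ φ
  have hinj := h1.1
  obtain ⟨hκl, hκω, hencW⟩ := h1.2.2.2.2.2 W κ hz hκ
  obtain ⟨e1, e2, e3, e4, e5, -⟩ := h2 W Q hz hQ
  -- the sets coding members of `SW` are in `W`
  have hA : ∀ (A : Z) (X : Set T), X ∈ SW W κ → EncS A X → A ∈ W := by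
    rintro A X ⟨-, A', hA', hX⟩ h
    rw [h1.2.2.2.2.1 A A' X h hX]
    exact hA'
  induction φ with
  | eq s t =>
    refine ⟨fun v => ∃ x ∈ W, (∃ r : T, v 0 = enc r ∧ x = enc (tval s r)) ∧
      ∃ r : T, v 0 = enc r ∧ x = enc (tval t r), ?_, ?_⟩
    · exact DP.ex (P := fun x v => (∃ r : T, v 0 = enc r ∧ x = enc (tval s r)) ∧
        ∃ r : T, v 0 = enc r ∧ x = enc (tval t r)) ((e4 s).and (e4 t))
    · intro e σ v he _ hv _
      simp only [Sat]
      constructor
      · rintro ⟨x, _, ⟨r, hr, hx⟩, r', hr', hx'⟩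
        rw [hv] at hr hr'
        obtain rfl := hinj _ _ hr
        obtain rfl := hinj _ _ hr'
        exact hinj _ _ (hx.symm.trans hx')
      · intro h
        refine ⟨enc (tval s e), (hencW _).2 (tval_mem he), ⟨e, hv, rfl⟩, e, hv, ?_⟩
        rw [h]
  | llt s t =>
    refine ⟨fun v => ∃ x ∈ W, ∃ y ∈ W, (∃ r : T, v 0 = enc r ∧ x = enc (tval s r)) ∧
      (∃ r : T, v 0 = enc r ∧ y = enc (tval t r)) ∧
      ∃ a b : T, x = enc a ∧ y = enc b ∧ a.llt b, ?_, ?_⟩
    · refine DP.ex (P := fun x v => ∃ y ∈ W, (∃ r : T, v 0 = enc r ∧ x = enc (tval s r)) ∧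
        (∃ r : T, v 0 = enc r ∧ y = enc (tval t r)) ∧
        ∃ a b : T, x = enc a ∧ y = enc b ∧ a.llt b) ?_
      refine DP.ex (P := fun y v => (∃ r : T, v 1 = enc r ∧ v 0 = enc (tval s r)) ∧
        (∃ r : T, v 1 = enc r ∧ y = enc (tval t r)) ∧
        ∃ a b : T, v 0 = enc a ∧ y = enc b ∧ a.llt b) ?_
      refine DP.and ?_ (DP.and ?_ ?_)
      · exact DP.app2 (R := fun x y => ∃ r : T, y = enc r ∧ x = enc (tval s r)) (e4 s)
          (DT.var 1) (DT.var 2)
      · exact DP.app2 (R := fun x y => ∃ r : T, y = enc r ∧ x = enc (tval t r)) (e4 t)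
          (DT.var 0) (DT.var 2)
      · exact DP.app2 (R := fun x y => ∃ a b : T, x = enc a ∧ y = enc b ∧ a.llt b) e2
          (DT.var 1) (DT.var 0)
    · intro e σ v he _ hv _
      simp only [Sat]
      constructor
      · rintro ⟨x, _, y, _, ⟨r, hr, hx⟩, ⟨r', hr', hy⟩, a, b, ha, hb, hab⟩
        rw [hv] at hr hr'
        obtain rfl := hinj _ _ hr
        obtain rfl := hinj _ _ hr'
        rw [hinj _ _ (hx.symm.trans ha), hinj _ _ (hy.symm.trans hb)]
        exact hab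
      · intro h
        exact ⟨enc (tval s e), (hencW _).2 (tval_mem he), enc (tval t e),
          (hencW _).2 (tval_mem he), ⟨e, hv, rfl⟩, ⟨e, hv, rfl⟩, _, _, rfl, rfl, h⟩
  | isOrd s =>
    refine ⟨fun v => ∃ x ∈ W, (∃ r : T, v 0 = enc r ∧ x = enc (tval s r)) ∧
      ∃ a : T, x = enc a ∧ a.IsOrd, ?_, ?_⟩
    · refine DP.ex (P := fun x v => (∃ r : T, v 0 = enc r ∧ x = enc (tval s r)) ∧
        ∃ a : T, x = enc a ∧ a.IsOrd) ((e4 s).and ?_)
      exact DP.app1 (R := fun x => ∃ a : T, x = enc a ∧ a.IsOrd) e3 (DT.var 0)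
    · intro e σ v he _ hv _
      simp only [Sat]
      constructor
      · rintro ⟨x, _, ⟨r, hr, hx⟩, a, ha, ha'⟩
        rw [hv] at hr
        obtain rfl := hinj _ _ hr
        rw [hinj _ _ (hx.symm.trans ha)]
        exact ha'
      · intro h
        exact ⟨enc (tval s e), (hencW _).2 (tval_mem he), ⟨e, hv, rfl⟩, _, rfl, h⟩
  | mem s i =>
    refine ⟨fun v => ∃ x ∈ W, (∃ r : T, v 0 = enc r ∧ x = enc (tval s r)) ∧ x ∈ v (i + 1), ?_, ?_⟩
    · exact DP.ex (P := fun x v => (∃ r : T, v 0 = enc r ∧ x = enc (tval s r)) ∧ x ∈ v (i + 1))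
        ((e4 s).and (DP.vmem 0 (i + 2)))
    · intro e σ v he _ hv hσ
      simp only [Sat]
      constructor
      · rintro ⟨x, _, ⟨r, hr, hx⟩, hxi⟩
        rw [hv] at hr
        obtain rfl := hinj _ _ hr
        obtain ⟨t, ht, hxt⟩ := (hσ i x).1 hxi
        rw [hinj _ _ (hx.symm.trans hxt)]
        exact ht
      · intro h
        exact ⟨enc (tval s e), (hencW _).2 (tval_mem he), ⟨e, hv, rfl⟩, (hσ i _).2 ⟨_, h, rfl⟩⟩
  | nand φ ψ ih1 ih2 =>
    obtain ⟨P1, hP1, h1'⟩ := ih1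
    obtain ⟨P2, hP2, h2'⟩ := ih2
    refine ⟨fun v => ¬ (P1 v ∧ P2 v), (hP1.and hP2).not, ?_⟩
    intro e σ v he hS hv hσ
    simp only [Sat]
    rw [h1' e σ v he hS hv hσ, h2' e σ v he hS hv hσ]
  | exT φ ih =>
    obtain ⟨P1, hP1, h1'⟩ := ih
    refine ⟨fun v => ∃ x ∈ W, ∃ y ∈ W, (∃ s t : T, y = enc (.pr s t) ∧ x = enc s ∧ v 0 = enc t) ∧
      P1 (zcons y (fun i => v (i + 1))), ?_, ?_⟩
    · refine DP.ex (P := fun x v => ∃ y ∈ W, (∃ s t : T, y = enc (.pr s t) ∧ x = enc s ∧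
        v 0 = enc t) ∧ P1 (zcons y (fun i => v (i + 1)))) ?_
      refine DP.ex (P := fun y v => (∃ s t : T, y = enc (.pr s t) ∧ v 0 = enc s ∧
        v 1 = enc t) ∧ P1 (zcons y (fun i => v (i + 2)))) (e5.and ?_)
      have := DP.ren (fun i => if i = 0 then 0 else i + 2) hP1
      refine this.congr fun v _ => iff_of_eq (congrArg _ ?_)
      funext i
      rcases i with _ | i <;> simp [zcons]
    · intro e σ v he hS hv hσ
      simp only [Sat]
      constructor
      · rintro ⟨x, hxW, y, _, ⟨s, t, hy, hx, ht⟩, hP⟩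
        rw [hv] at ht
        obtain rfl := hinj _ _ ht
        have hs : s ∈ D (Iio κ) := (hencW s).1 (hx ▸ hxW)
        refine ⟨s, hs, ?_⟩
        exact (h1' (.pr s e) σ (zcons y (fun i => v (i + 1))) (pr_mem.2 ⟨hs, he⟩) hS hy
          (fun i => hσ i)).1 hP
      · rintro ⟨s, hs, h⟩
        refine ⟨enc s, (hencW s).2 hs, enc (.pr s e), (hencW _).2 (pr_mem.2 ⟨hs, he⟩),
          ⟨s, e, rfl, rfl, hv⟩, ?_⟩
        exact (h1' (.pr s e) σ (zcons (enc (.pr s e)) (fun i => v (i + 1)))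
          (pr_mem.2 ⟨hs, he⟩) hS rfl (fun i => hσ i)).2 h
  | exS φ ih =>
    obtain ⟨P1, hP1, h1'⟩ := ih
    refine ⟨fun v => ∃ A ∈ W, (∀ z ∈ A, ∃ t : T, z = enc t) ∧
      P1 (zcons (v 0) (zcons A (fun i => v (i + 1)))), ?_, ?_⟩
    · refine DP.ex (P := fun A v => (∀ z ∈ A, ∃ t : T, z = enc t) ∧
        P1 (zcons (v 0) (zcons A (fun i => v (i + 1))))) (DP.and ?_ ?_)
      · exact DP.ball (P := fun z _ => ∃ t : T, z = enc t) (DT.var 0) e1
      · have := DP.ren (fun i => if i = 0 then 1 else if i = 1 then 0 else i) hP1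
        refine this.congr fun v _ => iff_of_eq (congrArg _ ?_)
        funext i
        rcases i with _ | _ | i <;> simp [zcons]
    · intro e σ v he hS hv hσ
      simp only [Sat]
      constructor
      · rintro ⟨A, hAW, hAt, hP⟩
        have hEA : EncS A {t : T | enc t ∈ A} := by
          intro z
          constructor
          · intro hz'
            obtain ⟨t, rfl⟩ := hAt z hz'
            exact ⟨t, hz', rfl⟩
          · rintro ⟨t, ht, rfl⟩
            exact ht
        have hX : {t : T | enc t ∈ A} ∈ SW W κ := by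
          refine ⟨⟨A.rank, (hκ _).1 ((h3 W Q hz hQ).1 A hAW), ?_⟩, A, hAW, hEA⟩
          intro t ht a ha
          exact (h1.2.2.1 t a ha).trans (ZFSet.rank_lt_of_mem ht)
        refine ⟨_, hX, ?_⟩
        refine (h1' e (scons {t : T | enc t ∈ A} σ) (zcons (v 0) (zcons A (fun i => v (i + 1))))
          he ?_ hv ?_).1 hP
        · intro i
          rcases i with _ | i
          exacts [hX, hS i]
        · intro i
          rcases i with _ | i
          exacts [hEA, hσ i]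
      · rintro ⟨X, hX, h⟩
        obtain ⟨-, A, hAW, hEA⟩ := id hX
        refine ⟨A, hAW, ?_, ?_⟩
        · intro z hz'
          obtain ⟨t, -, h⟩ := (hEA z).1 hz'
          exact ⟨t, h⟩
        · refine (h1' e (scons X σ) (zcons (v 0) (zcons A (fun i => v (i + 1)))) he ?_ hv ?_).2 h
          · intro i
            rcases i with _ | i
            exacts [hX, hS i]
          · intro i
            rcases i with _ | i
            exacts [hEA, hσ i]

end Pool.Agent.Helper17.OD.PkWTR
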